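import Mathlib
import Pool.Agent.V11170.CatalanDefs

set_option autoImplicit false

namespace Pool.Agent.Results.MP_28c202_co.MajTwoRows

open Finset Pool.Agent.V11170.CatalanMaj Pool.Agent.V11170.CatalanDefs

/-- The order of `NE_{s,t}` on the labels `0, …, st - 1`; the label `x = it + k` stands for the
element `x + 1 = ((i + 1) - 1) t + (k + 1)`. -/
def Prec (t x y : ℕ) : Prop := y / t ≤ x / t ∧ y % t ≤ x % t

/-- The set `NE_{2,t}(123)`. -/
noncomputable def NE (t : ℕ) : Finset (Equiv.Perm (Fin (2 * t))) := linExt123 (2 * t) (Prec t)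

theorem divmod_hi {t k : ℕ} (hk : k < t) : (2 * t - 1 - k) / t = 1 ∧
    (2 * t - 1 - k) % t = t - 1 - k := by
  have h : 2 * t - 1 - k = (t - 1 - k) + t * 1 := by omega
  constructor
  · rw [h, Nat.add_mul_div_left _ _ (by omega), Nat.div_eq_of_lt (by omega)]
  · rw [h, Nat.add_mul_mod_self_left, Nat.mod_eq_of_lt (by omega)]

theorem divmod_lo {t k : ℕ} (hk : k < t) : (t - 1 - k) / t = 0 ∧
    (t - 1 - k) % t = t - 1 - k :=
  ⟨Nat.div_eq_of_lt (by omega), Nat.mod_eq_of_lt (by omega)⟩

theorem field_identity (t : ℕ) (K : Type) [Field K] (q : K) (hq : q ≠ 0) :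
    ∑ π ∈ NE t, q ^ maj π = q ^ (t ^ 2) * catalanSum q t := by
  unfold NE
  have hL : Labels t (fun k => 2 * t - 1 - k) (fun k => t - 1 - k) := by
    refine ⟨fun k hk => ?_, fun k k' h h' => ?_, fun k k' h h' => ?_, fun k k' h h' => ?_,
      fun x hx => ?_⟩
    · omega
    · omega
    · omega
    · omega
    · by_cases h : x < t
      · right
        exact ⟨t - 1 - x, by omega, by omega⟩
      · left
        exact ⟨2 * t - 1 - x, by omega, by omega⟩
  rw [sum_maj hL rfl ?_ ?_ ?_ ?_ cV ?_ q hq, gf_V, catalanSum_eq]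
  · have h1 := cf_palindrome q hq t
    have h2 : (2 * t).choose 2 = (t ^ 2 - t) + t ^ 2 ∧ (t ^ 2 - t) + t = t ^ 2 := by
      have h3 : t ≤ t ^ 2 := Nat.le_self_pow (by norm_num) t
      refine ⟨?_, by omega⟩
      rw [Nat.choose_two_right]
      have h4 : 2 * t * (2 * t - 1) = 2 * ((t ^ 2 - t) + t ^ 2) := by
        cases t with
        | zero => rfl
        | succ t =>
          have h5 : (t + 1) ^ 2 - (t + 1) = (t + 1) * t := by
            have : (t + 1) ^ 2 = (t + 1) * t + (t + 1) := by ring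
            omega
          rw [h5, show 2 * (t + 1) - 1 = 2 * t + 1 by omega]
          ring
      rw [h4, Nat.mul_div_cancel_left _ (by norm_num)]
    calc q ^ (2 * t).choose 2 * cf q⁻¹ t t = q ^ (t ^ 2 - t) * (q ^ t ^ 2 * cf q⁻¹ t t) := by
          rw [h2.1, pow_add, mul_assoc]
      _ = q ^ ((t ^ 2 - t) + t) * cf q t t := by rw [h1, pow_add, mul_assoc]
      _ = _ := by rw [h2.2]
  · intro k k' hk hk'
    unfold Prec
    simp only [divmod_hi hk, divmod_hi hk']
    omega
  · intro k k' hk hk'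
    unfold Prec
    simp only [divmod_lo hk, divmod_lo hk']
    omega
  · intro k k' hk hk'
    unfold Prec
    simp only [divmod_hi hk, divmod_lo hk']
    omega
  · intro k k' hk hk'
    unfold Prec
    simp only [divmod_lo hk, divmod_hi hk']
    omega
  · intro w hw hv hn i hi
    have hs := ones_succ i w
    have hv1 := hv i (by rw [mem_range]; omega)
    have hv2 := hv (i + 1) (by rw [mem_range]; omega)
    unfold cV
    rcases L_spec (fun k => 2 * t - 1 - k) (fun k => t - 1 - k) hw hn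
      (show i < 2 * t by omega) with ⟨a1, a2, a3⟩ | ⟨a1, a2, a3⟩ <;>
    rcases L_spec (fun k => 2 * t - 1 - k) (fun k => t - 1 - k) hw hn
        (show i + 1 < 2 * t by omega) with ⟨b1, b2, b3⟩ | ⟨b1, b2, b3⟩
    all_goals
      rw [a3, b3]
      omega

/-- For every `t ≥ 1`, `NE_{2,t}(123)[q] = q^{t^2} c_t(q)` in `ℤ[q]`. -/
theorem result (t : ℕ) (_ht : 1 ≤ t) :
    ∑ π ∈ NE t, (Polynomial.X : Polynomial ℤ) ^ maj π =
      Polynomial.X ^ (t ^ 2) * catalanSum (Polynomial.X : Polynomial ℤ) t :=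
  transfer (NE t) t (t ^ 2) (fun K _ q hq => field_identity t K q hq)

end Pool.Agent.Results.MP_28c202_co.MajTwoRows
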